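import Pool.Agent.H121.SH.Iface
import Pool.Agent.H121.Z987.Rs

/-! Project SH: resonant neighbours (`S_resn`). -/

set_option autoImplicit false

open scoped BigOperators InnerProductSpace Topology ENNReal
open Filter MeasureTheory

namespace Pool.Agent.H721.SH

open Pool.Agent.H121.Z987 (lint_resample update_meas)
open Pool.Agent.H121.SH

theorem enr (g : ℂ) (s : ℝ) (hs : 0 ≤ s) : ‖g‖ₑ ^ s = ENNReal.ofReal (‖g‖ ^ s) := by
  rw [← ENNReal.ofReal_rpow_of_nonneg (norm_nonneg g) hs, ofReal_norm]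

/-- subadditivity for finite sums with coefficients at most one -/
theorem sum_rpow_le {ι : Type} (F : Finset ι) (c g : ι → ℂ) (hc : ∀ w, ‖c w‖ ≤ 1) (s : ℝ) (hs : 0 < s)
    (hs1 : s ≤ 1) : ‖∑ w ∈ F, c w * g w‖ₑ ^ s ≤ ∑ w ∈ F, ‖g w‖ₑ ^ s := by
  classical
  induction F using Finset.induction_on with
  | empty => simp [hs]
  | insert x F hx ih =>
    rw [Finset.sum_insert hx, Finset.sum_insert hx]
    have h1 : ‖c x * g x + ∑ w ∈ F, c w * g w‖ₑ ^ s ≤
        (‖c x * g x‖ₑ + ‖∑ w ∈ F, c w * g w‖ₑ) ^ s := by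
      gcongr
      exact enorm_add_le _ _
    refine h1.trans ((ENNReal.rpow_add_le_add_rpow _ _ hs.le hs1).trans ?_)
    refine add_le_add ?_ ih
    have h2 : ‖c x * g x‖ₑ ≤ ‖g x‖ₑ := by
      rw [enorm_mul]
      have h3 : ‖c x‖ₑ ≤ 1 := by
        rw [← ofReal_norm]
        calc ENNReal.ofReal ‖c x‖ ≤ ENNReal.ofReal 1 := ENNReal.ofReal_le_ofReal (hc x)
          _ = 1 := ENNReal.ofReal_one
      calc ‖c x‖ₑ * ‖g x‖ₑ ≤ 1 * ‖g x‖ₑ := by gcongr
        _ = ‖g x‖ₑ := one_mul _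
    gcongr

/-- the pointwise bound -/
theorem ptw (X Y β b a R g G F z0 : ℂ) (lam s : ℝ) (hlam : 0 < lam) (hs : 0 < s) (hs1 : s ≤ 1)
    (hgY : g * Y = 1) (hG : G * (X - b ^ 2 * g) = 1) (hF : F = G * (b * g * a - R))
    (hβ : X - b ^ 2 * g = β) (hg : lam ≤ ‖g‖) (_hz0 : z0 = 0) :
    ‖Y‖ ≤ 1 / lam ∧
    ‖F‖ₑ ^ s ≤ ENNReal.ofReal ((‖b‖ / ‖X * Y - b ^ 2‖) ^ s) * ‖a‖ₑ ^ s +
      ENNReal.ofReal (‖β‖⁻¹ ^ s) * ‖R‖ₑ ^ s := by
  have hgp : 0 < ‖g‖ := lt_of_lt_of_le hlam hg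
  have hYn : ‖g‖ * ‖Y‖ = 1 := by rw [← norm_mul, hgY, norm_one]
  refine ⟨?_, ?_⟩
  · rw [le_div_iff₀ hlam]
    calc ‖Y‖ * lam ≤ ‖Y‖ * ‖g‖ := by gcongr
      _ = 1 := by rw [mul_comm]; exact hYn
  · have hGg : G * g * (X * Y - b ^ 2) = 1 := by
      calc G * g * (X * Y - b ^ 2) = G * (X * (g * Y) - b ^ 2 * g) := by ring
        _ = 1 := by rw [hgY, mul_one, hG]
    have e1 : ‖G * g‖ * ‖X * Y - b ^ 2‖ = 1 := by rw [← norm_mul, hGg, norm_one]
    have hne : ‖X * Y - b ^ 2‖ ≠ 0 := by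
      intro h
      rw [h, mul_zero] at e1
      exact zero_ne_one e1
    have e2 : ‖G * b * g‖ = ‖b‖ / ‖X * Y - b ^ 2‖ := by
      rw [eq_div_iff hne]
      calc ‖G * b * g‖ * ‖X * Y - b ^ 2‖ = ‖b‖ * (‖G * g‖ * ‖X * Y - b ^ 2‖) := by
            rw [norm_mul, norm_mul, norm_mul]; ring
        _ = ‖b‖ := by rw [e1, mul_one]
    have e3 : ‖G‖ = ‖β‖⁻¹ := by
      have h1 : ‖G‖ * ‖β‖ = 1 := by rw [← hβ, ← norm_mul, hG, norm_one]
      exact eq_inv_of_mul_eq_one_left h1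
    have e4 : F = (G * b * g) * a - G * R := by rw [hF]; ring
    have h5 : ‖F‖ₑ ≤ ‖G * b * g‖ₑ * ‖a‖ₑ + ‖G‖ₑ * ‖R‖ₑ := by
      rw [e4]
      refine enorm_sub_le.trans (le_of_eq ?_)
      rw [enorm_mul (G * b * g) a, enorm_mul G R]
    calc ‖F‖ₑ ^ s ≤ (‖G * b * g‖ₑ * ‖a‖ₑ + ‖G‖ₑ * ‖R‖ₑ) ^ s := by gcongr
      _ ≤ (‖G * b * g‖ₑ * ‖a‖ₑ) ^ s + (‖G‖ₑ * ‖R‖ₑ) ^ s :=
          ENNReal.rpow_add_le_add_rpow _ _ hs.le hs1
      _ = ‖G * b * g‖ₑ ^ s * ‖a‖ₑ ^ s + ‖G‖ₑ ^ s * ‖R‖ₑ ^ s := by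
          rw [ENNReal.mul_rpow_of_nonneg _ _ hs.le, ENNReal.mul_rpow_of_nonneg _ _ hs.le]
      _ = _ := by
          rw [enr (G * b * g) s hs.le, enr G s hs.le, e2, e3]

/-- `S_resn` -/
theorem resn (hsch : S_sch) (hpair : S_pair) (hone : S_one) (htwo : S_two) (hmeas : S_measR) :
    S_resn := by
  intro D lam h hD hlam1 hh hh2 μ _ hDn ι _ K t N hG Ω z x x' y hz hxΩ hx' hyx
  classical
  have hlam : 0 < lam := lt_of_lt_of_le one_pos hlam1
  obtain ⟨s, hsdef⟩ : ∃ s : ℝ, s = 1 - h := ⟨_, rfl⟩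
  have hs : 0 < s := by rw [hsdef]; linarith
  have hs1 : s ≤ 1 := by rw [hsdef]; linarith
  rw [← hsdef]
  by_cases hx'Ω : x' ∈ Ω
  swap
  · have h0 : fo μ lam s t Ω z x x' y = 0 := by
      rw [fo]
      rw [lintegral_eq_zero_iff' ?_]
      · refine Filter.Eventually.of_forall fun ω => ?_
        rw [Set.indicator_apply, if_neg]
        · rfl
        · rw [Set.mem_ofPred_eq, GR, if_neg (fun hc => hx'Ω hc.1.1), norm_zero]
          exact not_le.2 hlam
      · have hm1 := hmeas ι K t N hG lam (Ω \ {x}) z x' x' hz.ne'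
        have hm2 := hmeas ι K t N hG lam Ω z x y hz.ne'
        exact ((hm2.enorm.pow_const s).indicator
          (measurableSet_le measurable_const hm1.norm)).aemeasurable
    rw [h0]
    exact zero_le
  have hxx' : x' ≠ x := fun hc => hG.nx x (hc ▸ hx')
  -- the reduced quantities
  obtain ⟨W, hW⟩ : ∃ W : Set ι, W = Ω \ {x, x'} := ⟨_, rfl⟩
  have hxW : x ∉ W := by rw [hW]; simp
  have hx'W : x' ∉ W := by rw [hW]; simp
  have inv : ∀ (ω : ι → ℝ) (p : ι) (v : ℝ), p ∉ W → ∀ u w,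
      GR t (fun q => lam * Function.update ω p v q) W z u w = GR t (fun q => lam * ω q) W z u w := by
    intro ω p v hp u w
    refine (hsch ι K t N hG (fun q => lam * ω q) W z hz).2.1 _ (fun q hq => ?_) u w
    have hqp : q ≠ p := fun hc => hp (hc ▸ hq)
    simp only [Function.update_of_ne hqp]
  obtain ⟨A, hA⟩ : ∃ A : (ι → ℝ) → ℂ, A = fun ω => qA t N (fun q => lam * ω q) W z x x' := ⟨_, rfl⟩
  obtain ⟨b, hb⟩ : ∃ b : (ι → ℝ) → ℂ, b = fun ω => qb t N (fun q => lam * ω q) W z x x' := ⟨_, rfl⟩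
  obtain ⟨B, hB⟩ : ∃ B : (ι → ℝ) → ℂ, B = fun ω => qB t N (fun q => lam * ω q) W z x' := ⟨_, rfl⟩
  obtain ⟨a, ha⟩ : ∃ a : (ι → ℝ) → ℂ, a = fun ω => qa t N (fun q => lam * ω q) W z x' y := ⟨_, rfl⟩
  obtain ⟨R, hR⟩ : ∃ R : (ι → ℝ) → ℂ, R = fun ω => qR t N (fun q => lam * ω q) W z x x' y := ⟨_, rfl⟩
  have iA : ∀ (ω : ι → ℝ) (p : ι) (v : ℝ), p ∉ W → A (Function.update ω p v) = A ω := by
    intro ω p v hp
    simp only [hA, qA, inv ω p v hp]
  have ib : ∀ (ω : ι → ℝ) (p : ι) (v : ℝ), p ∉ W → b (Function.update ω p v) = b ω := by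
    intro ω p v hp
    simp only [hb, qb, inv ω p v hp]
  have iB : ∀ (ω : ι → ℝ) (p : ι) (v : ℝ), p ∉ W → B (Function.update ω p v) = B ω := by
    intro ω p v hp
    simp only [hB, qB, inv ω p v hp]
  have ia : ∀ (ω : ι → ℝ) (p : ι) (v : ℝ), p ∉ W → a (Function.update ω p v) = a ω := by
    intro ω p v hp
    simp only [ha, qa, inv ω p v hp]
  have iR : ∀ (ω : ι → ℝ) (p : ι) (v : ℝ), p ∉ W → R (Function.update ω p v) = R ω := by
    intro ω p v hp
    simp only [hR, qR, inv ω p v hp]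
  -- the integrand
  obtain ⟨f, hf⟩ : ∃ f : (ι → ℝ) → ℝ≥0∞,
      f = {ω : ι → ℝ | lam ≤ ‖GR t (fun p => lam * ω p) (Ω \ {x}) z x' x'‖}.indicator
        (fun ω => ‖GR t (fun p => lam * ω p) Ω z x y‖ₑ ^ s) := ⟨_, rfl⟩
  have hfm : Measurable f := by
    have hm1 := hmeas ι K t N hG lam (Ω \ {x}) z x' x' hz.ne'
    have hm2 := hmeas ι K t N hG lam Ω z x y hz.ne'
    rw [hf]
    exact (hm2.enorm.pow_const s).indicator (measurableSet_le measurable_const hm1.norm)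
  have hfo : fo μ lam s t Ω z x x' y = ∫⁻ ω, f ω ∂(Measure.infinitePi fun _ : ι => μ) := by
    rw [fo, hf]
  -- the pointwise bound
  have hpt : ∀ (ω : ι → ℝ) (w v : ℝ),
      f (Function.update (Function.update ω x' w) x v) ≤
      {w : ℝ | ‖((lam * w : ℝ) : ℂ) - B ω‖ ≤ 1 / lam}.indicator (fun w =>
        ENNReal.ofReal ((‖b ω‖ / ‖(((lam * v : ℝ) : ℂ) - (z + A ω)) *
          (((lam * w : ℝ) : ℂ) - B ω) - b ω ^ 2‖) ^ s) * ‖a ω‖ₑ ^ s +
        ENNReal.ofReal (‖((lam * v : ℝ) : ℂ) -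
          (z + A ω + b ω ^ 2 * (((lam * w : ℝ) : ℂ) - B ω)⁻¹)‖⁻¹ ^ s) * ‖R ω‖ₑ ^ s) w := by
    intro ω w v
    obtain ⟨η, hη⟩ : ∃ η : ι → ℝ, η = Function.update (Function.update ω x' w) x v := ⟨_, rfl⟩
    have hηx : η x = v := by rw [hη, Function.update_self]
    have hηx' : η x' = w := by rw [hη, Function.update_of_ne hxx', Function.update_self]
    have eA : A η = A ω := by rw [hη, iA _ x v hxW, iA _ x' w hx'W]
    have eb : b η = b ω := by rw [hη, ib _ x v hxW, ib _ x' w hx'W]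
    have eB : B η = B ω := by rw [hη, iB _ x v hxW, iB _ x' w hx'W]
    have ea : a η = a ω := by rw [hη, ia _ x v hxW, ia _ x' w hx'W]
    have eR : R η = R ω := by rw [hη, iR _ x v hxW, iR _ x' w hx'W]
    rw [← hη]
    obtain ⟨p1, p2, p3⟩ := hpair ι K t N hG (fun p => lam * η p) Ω z hz x x' y hxΩ hx' hx'Ω hyx
    rw [← hW] at p1 p2 p3
    have qA' : qA t N (fun p => lam * η p) W z x x' = A ω := by rw [← eA, hA]
    have qb' : qb t N (fun p => lam * η p) W z x x' = b ω := by rw [← eb, hb]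
    have qB' : qB t N (fun p => lam * η p) W z x' = B ω := by rw [← eB, hB]
    have qa' : qa t N (fun p => lam * η p) W z x' y = a ω := by rw [← ea, ha]
    have qR' : qR t N (fun p => lam * η p) W z x x' y = R ω := by rw [← eR, hR]
    rw [qB', hηx'] at p1
    rw [qA', qb', hηx] at p2
    rw [qb', qa', qR'] at p3
    rw [hf]
    by_cases hc : lam ≤ ‖GR t (fun p => lam * η p) (Ω \ {x}) z x' x'‖
    · rw [Set.indicator_of_mem (by exact hc)]
      have hginv : GR t (fun p => lam * η p) (Ω \ {x}) z x' x' =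
          (((lam * w : ℝ) : ℂ) - B ω)⁻¹ := eq_inv_of_mul_eq_one_left p1
      obtain ⟨r1, r2⟩ := ptw (((lam * v : ℝ) : ℂ) - (z + A ω)) (((lam * w : ℝ) : ℂ) - B ω)
        (((lam * v : ℝ) : ℂ) - (z + A ω + b ω ^ 2 * (((lam * w : ℝ) : ℂ) - B ω)⁻¹))
        (b ω) (a ω) (R ω) (GR t (fun p => lam * η p) (Ω \ {x}) z x' x')
        (GR t (fun p => lam * η p) Ω z x x) (GR t (fun p => lam * η p) Ω z x y) 0 lam s hlam hs hs1
        p1 (by rw [← p2]; ring) p3 (by rw [hginv]; ring) hc rfl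
      rw [Set.indicator_of_mem (by exact r1)]
      exact r2
    · rw [Set.indicator_of_notMem (by exact hc)]
      exact zero_le
  -- the double integral
  have hinner : ∀ ω : ι → ℝ, ∫⁻ w, ∫⁻ v, f (Function.update (Function.update ω x' w) x v) ∂μ ∂μ ≤
      ENNReal.ofReal (k1 D lam h) * ‖a ω‖ₑ ^ s + ENNReal.ofReal (k2 D lam h) * ‖R ω‖ₑ ^ s := by
    intro ω
    obtain ⟨S, hS⟩ : ∃ S : Set ℝ, S = {w : ℝ | ‖((lam * w : ℝ) : ℂ) - B ω‖ ≤ 1 / lam} := ⟨_, rfl⟩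
    have hcont : Continuous fun w : ℝ => ‖((lam * w : ℝ) : ℂ) - B ω‖ := by fun_prop
    have hSm : MeasurableSet S := by
      rw [hS]
      exact measurableSet_le hcont.measurable measurable_const
    obtain ⟨J, hJ⟩ : ∃ J : ℝ → ℝ≥0∞, J = fun w => ∫⁻ v : ℝ, ENNReal.ofReal
        ((‖b ω‖ / ‖(((lam * v : ℝ) : ℂ) - (z + A ω)) * (((lam * w : ℝ) : ℂ) - B ω) -
          b ω ^ 2‖) ^ s) ∂μ := ⟨_, rfl⟩
    have haT : ‖a ω‖ₑ ^ s ≠ ∞ := ENNReal.rpow_ne_top_of_nonneg hs.le enorm_ne_top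
    have hRT : ‖R ω‖ₑ ^ s ≠ ∞ := ENNReal.rpow_ne_top_of_nonneg hs.le enorm_ne_top
    have h1 : ∀ w : ℝ, ∫⁻ v, f (Function.update (Function.update ω x' w) x v) ∂μ ≤
        S.indicator (fun w => J w * ‖a ω‖ₑ ^ s +
          ENNReal.ofReal (cC D lam h) * ‖R ω‖ₑ ^ s) w := by
      intro w
      by_cases hw : w ∈ S
      · rw [Set.indicator_of_mem hw]
        have h2 : ∀ v : ℝ, f (Function.update (Function.update ω x' w) x v) ≤
            ENNReal.ofReal ((‖b ω‖ / ‖(((lam * v : ℝ) : ℂ) - (z + A ω)) *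
              (((lam * w : ℝ) : ℂ) - B ω) - b ω ^ 2‖) ^ s) * ‖a ω‖ₑ ^ s +
            ENNReal.ofReal (‖((lam * v : ℝ) : ℂ) -
              (z + A ω + b ω ^ 2 * (((lam * w : ℝ) : ℂ) - B ω)⁻¹)‖⁻¹ ^ s) * ‖R ω‖ₑ ^ s := by
          intro v
          have h3 := hpt ω w v
          rw [← hS, Set.indicator_of_mem hw] at h3
          exact h3
        refine (lintegral_mono h2).trans ?_
        have hm : Measurable fun v : ℝ => ENNReal.ofReal ((‖b ω‖ / ‖(((lam * v : ℝ) : ℂ) -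
            (z + A ω)) * (((lam * w : ℝ) : ℂ) - B ω) - b ω ^ 2‖) ^ s) * ‖a ω‖ₑ ^ s := by
          have hc1 : Continuous fun v : ℝ => ‖(((lam * v : ℝ) : ℂ) -
            (z + A ω)) * (((lam * w : ℝ) : ℂ) - B ω) - b ω ^ 2‖ := by fun_prop
          exact (((hc1.measurable.const_div _).pow_const s).ennreal_ofReal).mul_const _
        rw [lintegral_add_left hm, lintegral_mul_const' _ _ haT, lintegral_mul_const' _ _ hRT]
        refine add_le_add (le_of_eq (by rw [hJ])) ?_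
        gcongr
        have h4 := (hone D lam h hD hlam1 hh hh2 μ hDn
          (z + A ω + b ω ^ 2 * (((lam * w : ℝ) : ℂ) - B ω)⁻¹)).1
        rw [← hsdef] at h4
        exact h4
      · rw [Set.indicator_of_notMem hw]
        refine le_of_eq ?_
        rw [← lintegral_zero (μ := μ)]
        refine lintegral_congr fun v => ?_
        have h3 := hpt ω w v
        rw [← hS, Set.indicator_of_notMem hw] at h3
        exact le_antisymm h3 (zero_le)
    refine (lintegral_mono h1).trans ?_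
    rw [lintegral_indicator hSm, lintegral_add_right _ measurable_const,
      lintegral_mul_const' _ _ haT, lintegral_const, Measure.restrict_apply_univ]
    have h5 := htwo D lam h hD hlam1 hh hh2 μ hDn (z + A ω) (B ω) (b ω)
    have h6 := (hone D lam h hD hlam1 hh hh2 μ hDn (B ω)).2.2.1
    rw [← hsdef] at h5
    rw [← hS] at h5 h6
    refine add_le_add ?_ ?_
    · gcongr
      rw [hJ]
      exact h5
    · have hcC : 0 ≤ cC D lam h := by
        rw [cC]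
        positivity
      calc ENNReal.ofReal (cC D lam h) * ‖R ω‖ₑ ^ s * μ S =
            ENNReal.ofReal (cC D lam h) * μ S * ‖R ω‖ₑ ^ s := by ring
        _ ≤ ENNReal.ofReal (cC D lam h) * ENNReal.ofReal (2 * D / lam ^ 2) * ‖R ω‖ₑ ^ s := by
            gcongr
        _ = ENNReal.ofReal (k2 D lam h) * ‖R ω‖ₑ ^ s := by
            rw [← ENNReal.ofReal_mul hcC, k2, mul_comm (cC D lam h)]
  -- the moments
  have hGm : ∀ r : ι, Measurable fun ω : ι → ℝ => ‖GR t (fun p => lam * ω p) W z r y‖ₑ ^ s :=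
    fun r => (hmeas ι K t N hG lam W z r y hz.ne').enorm.pow_const s
  have htn : ∀ u w : ι, ‖((t u w : ℝ) : ℂ)‖ ≤ 1 := by
    intro u w
    rw [Complex.norm_real, Real.norm_eq_abs]
    exact hG.le u w
  have ha1 : ∀ ω : ι → ℝ, ‖a ω‖ₑ ^ s ≤ (if y = x' then 1 else 0) +
      ∑ r ∈ N x', ‖GR t (fun p => lam * ω p) W z r y‖ₑ ^ s := by
    intro ω
    rw [ha]
    show ‖qa t N (fun q => lam * ω q) W z x' y‖ₑ ^ s ≤ _
    rw [qa]
    by_cases hy : y = x'
    · rw [if_pos hy, if_pos hy, enorm_neg, enorm_one, ENNReal.one_rpow]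
      exact le_self_add
    · rw [if_neg hy, if_neg hy, zero_add]
      exact sum_rpow_le (N x') (fun r => ((t x' r : ℝ) : ℂ))
        (fun r => GR t (fun p => lam * ω p) W z r y) (fun r => htn x' r) s hs hs1
  have hR1 : ∀ ω : ι → ℝ, ‖R ω‖ₑ ^ s ≤
      ∑ w ∈ N x, ‖GR t (fun p => lam * ω p) W z w y‖ₑ ^ s := by
    intro ω
    rw [hR]
    show ‖qR t N (fun q => lam * ω q) W z x x' y‖ₑ ^ s ≤ _
    rw [qR]
    refine (sum_rpow_le ((N x).erase x') (fun r => ((t x r : ℝ) : ℂ))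
        (fun r => GR t (fun p => lam * ω p) W z r y) (fun r => htn x r) s hs hs1).trans ?_
    exact Finset.sum_le_sum_of_subset (Finset.erase_subset _ _)
  -- conclusion
  have hF1 : Measurable fun ω : ι → ℝ => ∫⁻ v, f (Function.update ω x v) ∂μ :=
    (hfm.comp (update_meas x)).lintegral_prod_right' (ν := μ)
  rw [hfo, lint_resample μ x f hfm, lint_resample μ x' _ hF1]
  calc ∫⁻ ω, ∫⁻ w, ∫⁻ v, f (Function.update (Function.update ω x' w) x v) ∂μ ∂μ
        ∂(Measure.infinitePi fun _ : ι => μ) ≤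
      ∫⁻ ω, (ENNReal.ofReal (k1 D lam h) * ((if y = x' then 1 else 0) +
          ∑ r ∈ N x', ‖GR t (fun p => lam * ω p) W z r y‖ₑ ^ s) +
        ENNReal.ofReal (k2 D lam h) *
          ∑ w ∈ N x, ‖GR t (fun p => lam * ω p) W z w y‖ₑ ^ s)
        ∂(Measure.infinitePi fun _ : ι => μ) := by
        refine lintegral_mono fun ω => (hinner ω).trans ?_
        gcongr
        · exact ha1 ω
        · exact hR1 ω
    _ = _ := by
        have hm1 : Measurable fun ω : ι → ℝ => ∑ r ∈ N x',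
            ‖GR t (fun p => lam * ω p) W z r y‖ₑ ^ s :=
          Finset.measurable_sum _ fun r _ => hGm r
        have hm2 : Measurable fun ω : ι → ℝ => ∑ r ∈ N x,
            ‖GR t (fun p => lam * ω p) W z r y‖ₑ ^ s :=
          Finset.measurable_sum _ fun r _ => hGm r
        rw [lintegral_add_right _ (hm2.const_mul _), lintegral_const_mul' _ _ ENNReal.ofReal_ne_top,
          lintegral_const_mul' _ _ ENNReal.ofReal_ne_top, lintegral_add_left measurable_const,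
          lintegral_const, measure_univ, mul_one,
          lintegral_finsetSum _ (fun r _ => hGm r), lintegral_finsetSum _ (fun r _ => hGm r)]
        simp only [fa, hW]

end Pool.Agent.H721.SH
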